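import Pool.Agent.N356.SP.Defs4

set_option autoImplicit false

/-! # Project LS (helper356), KS7 (helper891): the eighth power of `f`, abstract part -/

namespace Pool.Agent.N891.LS

open Finset Pool.Agent.N356.SP

section

variable {Γ R : Type*} [AddCommGroup Γ] [CommRing R] [Algebra ℝ R] {K : Cone Γ R}
  {L : R →ₗ[ℝ] ℝ}

lemma mul0 {x y : R} {c : Γ} (hx : x ∈ K.P 0) (hy : y ∈ K.P c) : x * y ∈ K.P c := by
  have := K.mul 0 c x y hx hy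
  rwa [zero_add] at this

lemma pow0 {x : R} (hx : x ∈ K.P 0) (n : ℕ) : x ^ n ∈ K.P 0 := by
  induction n with
  | zero => rw [pow_zero]; exact K.one
  | succ n ih => rw [pow_succ]; exact mul0 ih hx

lemma isFun_ml (hL : IsFun K L) {E : R} (hE : E ∈ K.P 0) :
    IsFun K (L ∘ₗ LinearMap.mulLeft ℝ E) := by
  refine ⟨fun x hx => ?_, fun c hc x hx => ?_⟩
  · exact hL.nn _ (mul0 hE hx)
  · exact hL.z c hc _ (mul0 hE hx)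

lemma abs_v2 {μ v w : R} (hL : IsFun K L) (hμ : μ ∈ K.P 0) (hv : v ∈ K.P 0) (hw : w ∈ K.P 0)
    (HLv : ∀ L : R →ₗ[ℝ] ℝ, IsFun K L → 1 / 2 * L (μ ^ 2) + 8 / 15 * L w ≤ L v) :
    64 / 225 * L (w ^ 2) ≤ L (v ^ 2) - L (μ ^ 2 * v) + 1 / 4 * L (μ ^ 4) := by
  let L1 : R →ₗ[ℝ] ℝ := L ∘ₗ LinearMap.mulLeft ℝ v - (1 / 2 : ℝ) • (L ∘ₗ LinearMap.mulLeft ℝ (μ ^ 2)) +
    (8 / 15 : ℝ) • (L ∘ₗ LinearMap.mulLeft ℝ w)
  have e : ∀ x, L1 x = L (v * x) - 1 / 2 * L (μ ^ 2 * x) + 8 / 15 * L (w * x) := fun x => rfl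
  have h1 : IsFun K L1 := by
    refine ⟨fun x hx => ?_, fun c hc x hx => ?_⟩
    · have h2 := HLv _ (isFun_ml hL hx)
      have h3 : 1 / 2 * L (x * μ ^ 2) + 8 / 15 * L (x * w) ≤ L (x * v) := h2
      have h4 := hL.nn _ (mul0 hw hx)
      rw [e, mul_comm v, mul_comm (μ ^ 2), mul_comm w]
      rw [mul_comm w] at h4
      linarith
    · rw [e, hL.z c hc _ (mul0 hv hx), hL.z c hc _ (mul0 (pow0 hμ 2) hx), hL.z c hc _ (mul0 hw hx)]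
      ring
  have h2 := HLv L1 h1
  rw [e, e, e] at h2
  have e1 : v * v = v ^ 2 := by ring
  have e2 : μ ^ 2 * μ ^ 2 = μ ^ 4 := by ring
  have e3 : w * w = w ^ 2 := by ring
  have e4 : v * μ ^ 2 = μ ^ 2 * v := by ring
  have e5 : w * μ ^ 2 = μ ^ 2 * w := by ring
  have e6 : v * w = w * v := by ring
  rw [e1, e2, e3, e4, e5, e6] at h2
  linarith

lemma abs_f8 {f μ U v w : R} (hL : IsFun K L) (hμ : μ ∈ K.P 0) (hv : v ∈ K.P 0) (hw : w ∈ K.P 0)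
    (hf : f ^ 2 = μ + U)
    (HU : ∀ L : R →ₗ[ℝ] ℝ, IsFun K L → L U = 0)
    (HU2 : ∀ L : R →ₗ[ℝ] ℝ, IsFun K L → L (U ^ 2) = L v)
    (HU3 : ∀ L : R →ₗ[ℝ] ℝ, IsFun K L → 0 ≤ L (U ^ 3))
    (HU4 : ∀ L : R →ₗ[ℝ] ℝ, IsFun K L → 3 / 2 * L (v ^ 2) ≤ L (U ^ 4))
    (Hf6 : ∀ L : R →ₗ[ℝ] ℝ, IsFun K L →
      5 / 2 * L (μ ^ 3) + 8 / 3 * L (μ * w) ≤ L (f ^ 6))
    (HLv : ∀ L : R →ₗ[ℝ] ℝ, IsFun K L → 1 / 2 * L (μ ^ 2) + 8 / 15 * L w ≤ L v) :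
    35 / 8 * L (μ ^ 4) + 20 / 3 * L (μ ^ 2 * w) + 32 / 75 * L (w ^ 2) ≤ L (f ^ 8) := by
  have e8 : f ^ 8 = μ ^ 4 + (4 : ℝ) • (μ ^ 3 * U) + (6 : ℝ) • (μ ^ 2 * U ^ 2) +
      (4 : ℝ) • (μ * U ^ 3) + U ^ 4 := by
    have h1 : f ^ 8 = (f ^ 2) ^ 4 := by ring
    have s4 : ∀ x : R, (4 : ℝ) • x = 4 * x := fun x => by
      rw [Algebra.smul_def, map_ofNat]
    have s6 : ∀ x : R, (6 : ℝ) • x = 6 * x := fun x => by
      rw [Algebra.smul_def, map_ofNat]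
    rw [h1, hf, s4, s6, s4]
    ring
  have e6 : μ * f ^ 6 = μ ^ 4 + (3 : ℝ) • (μ ^ 3 * U) + (3 : ℝ) • (μ ^ 2 * U ^ 2) + μ * U ^ 3 := by
    have h1 : f ^ 6 = (f ^ 2) ^ 3 := by ring
    have s3 : ∀ x : R, (3 : ℝ) • x = 3 * x := fun x => by
      rw [Algebra.smul_def, map_ofNat]
    rw [h1, hf, s3, s3]
    ring
  have a1 : L (μ ^ 3 * U) = 0 := HU _ (isFun_ml hL (pow0 hμ 3))
  have a2 : L (μ ^ 2 * U ^ 2) = L (μ ^ 2 * v) := HU2 _ (isFun_ml hL (pow0 hμ 2))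
  have a3 : 0 ≤ L (μ * U ^ 3) := HU3 _ (isFun_ml hL hμ)
  have a4 := HU4 L hL
  have a5 : 5 / 2 * L (μ * μ ^ 3) + 8 / 3 * L (μ * (μ * w)) ≤ L (μ * f ^ 6) :=
    Hf6 _ (isFun_ml hL hμ)
  have a6 := abs_v2 hL hμ hv hw HLv
  have e1 : μ * μ ^ 3 = μ ^ 4 := by ring
  have e2 : μ * (μ * w) = μ ^ 2 * w := by ring
  rw [e1, e2, e6, map_add, map_add, map_add, map_smul, map_smul, smul_eq_mul, smul_eq_mul, a1,
    a2] at a5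
  rw [e8, map_add, map_add, map_add, map_add, map_smul, map_smul, map_smul, smul_eq_mul,
    smul_eq_mul, smul_eq_mul, a1, a2]
  linarith

end

end Pool.Agent.N891.LS
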