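import Pool.Agent.N891.LS.KS7a

set_option autoImplicit false

/-! # Project LS (helper356), KS7 (helper891): the eighth power of `f`, with KS3-KS6 as hypotheses -/

namespace Pool.Agent.N891.LS

open Finset Pool.Agent.N356.SP

section

variable {Γ R : Type*} [AddCommGroup Γ] [CommRing R] [Algebra ℝ R] {K : Cone Γ R}
  {L : R →ₗ[ℝ] ℝ} {C : Finset Γ} {θ : Γ → Γ → ℝ} {φ : Γ → R}

/-- KS7 from KS3 (`muA_mem`, `vA_mem`, `wA_mem`) and KS6 -/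
theorem L_v2_of (hL : IsFun K L) (hmu : muA C φ ∈ K.P 0) (hv : vA C φ ∈ K.P 0)
    (hw : wA C θ φ ∈ K.P 0)
    (L_v : ∀ L : R →ₗ[ℝ] ℝ, IsFun K L →
      1 / 2 * L (muA C φ ^ 2) + 8 / 15 * L (wA C θ φ) ≤ L (vA C φ)) :
    64 / 225 * L (wA C θ φ ^ 2) ≤
      L (vA C φ ^ 2) - L (muA C φ ^ 2 * vA C φ) + 1 / 4 * L (muA C φ ^ 4) :=
  abs_v2 hL hmu hv hw L_v

/-- KS7 from KS3, KS4, KS5, KS6 -/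
theorem L_f8_of (hL : IsFun K L) (hmu : muA C φ ∈ K.P 0) (hv : vA C φ ∈ K.P 0)
    (hw : wA C θ φ ∈ K.P 0) (fA_sq : fA C φ ^ 2 = muA C φ + UA C φ)
    (L_U : ∀ L : R →ₗ[ℝ] ℝ, IsFun K L → L (UA C φ) = 0)
    (L_U2 : ∀ L : R →ₗ[ℝ] ℝ, IsFun K L → L (UA C φ ^ 2) = L (vA C φ))
    (L_U3 : ∀ L : R →ₗ[ℝ] ℝ, IsFun K L → 0 ≤ L (UA C φ ^ 3))
    (L_U4 : ∀ L : R →ₗ[ℝ] ℝ, IsFun K L → 3 / 2 * L (vA C φ ^ 2) ≤ L (UA C φ ^ 4))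
    (L_f6 : ∀ L : R →ₗ[ℝ] ℝ, IsFun K L →
      5 / 2 * L (muA C φ ^ 3) + 8 / 3 * L (muA C φ * wA C θ φ) ≤ L (fA C φ ^ 6))
    (L_v : ∀ L : R →ₗ[ℝ] ℝ, IsFun K L →
      1 / 2 * L (muA C φ ^ 2) + 8 / 15 * L (wA C θ φ) ≤ L (vA C φ)) :
    35 / 8 * L (muA C φ ^ 4) + 20 / 3 * L (muA C φ ^ 2 * wA C θ φ) +
      32 / 75 * L (wA C θ φ ^ 2) ≤ L (fA C φ ^ 8) :=
  abs_f8 hL hmu hv hw fA_sq L_U L_U2 L_U3 L_U4 L_f6 L_v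

end

end Pool.Agent.N891.LS
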